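import Pool.Agent.NH34.Gal.QDefs

/-!
# The number of Tate classes: definitions
-/

open CategoryTheory AlgebraicGeometry

universe u v w

namespace Pool.Agent.NH34.SS

open Pool.Agent.H914 Pool.Agent.H914.VarClass Pool.Agent.H914.VarClass.Obj
  Pool.Agent.H914.WeilCohomology Pool.Agent.NH34.Gal Pool.Agent.NH34.Lin Pool.Agent.NH34.Lin

variable {k : Type u} [Field k] {𝒱 : VarClass k} {ops : CycleOps 𝒱}
  {W : WeilCohomology.{u, v} ops} {Γ : Type w} [Group Γ]

/-- The space spanned by the Tate classes of all codimensions on `X`. -/
def tateSpace (G : ActionData W Γ) (X : 𝒱.Obj) : Submodule W.K (W.H X) :=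
  tateSpan G.χ (G.act X) (W.gr X)

/-- The numerically trivial elements of the space of the Tate classes: their intersection numbers
with all Tate classes are zero. -/
def tateNull (G : ActionData W Γ) (X : 𝒱.Obj) : Submodule W.K (W.H X) :=
  nullOf (W.tr X) (tateSpace G X)

/-- The number of linearly independent Tate classes on `X` (of all codimensions). -/
noncomputable def tateDim (G : ActionData W Γ) (X : 𝒱.Obj) : ℕ := dimOf (tateSpace G X)

/-- The rank of the intersection form on the Tate classes on `X`. -/
noncomputable def tateRank (G : ActionData W Γ) (X : 𝒱.Obj) : ℕ :=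
  rankOn (W.tr X) (tateSpace G X)

/-- The intersection form on the Tate classes on `X` is nondegenerate. -/
def PerfectPairing (G : ActionData W Γ) (X : 𝒱.Obj) : Prop :=
  NondegOn (W.tr X) (tateSpace G X)

/-- The numbers `r n` are negligible in comparison with the numbers `t n`. -/
def Negligible (r t : ℕ → ℕ) : Prop := ∀ N : ℕ, ∃ n₀ : ℕ, ∀ n ≥ n₀, N * r n ≤ t n

end Pool.Agent.NH34.SS
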