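import Pool.Agent.NH34.SS.Semi
import Pool.Agent.NH34.SS.RDefs

/-!
# Semisimplicity or many Tate classes
-/

open CategoryTheory AlgebraicGeometry NumberField Polynomial

universe u v w

namespace Pool.Agent.NH34.SS

open Module
open Pool.Agent.H914 Pool.Agent.H914.VarClass Pool.Agent.H914.VarClass.Obj
  Pool.Agent.H914.WeilCohomology Pool.Agent.Y133.Half Pool.Agent.NH34.Gal Pool.Agent.NH34.Lin Pool.Agent.NH34.Reg
  Pool.Agent.H281R3.HT
open Pool.Agent.Y133.Half.Sys (Nondeg Op mem_Op)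

section general

variable {k : Type u} [Field k] {𝒱 : VarClass k} {ops : CycleOps 𝒱}
  {W : WeilCohomology.{u, v} ops} {Γ : Type w} [Group Γ] {G : ActionData W Γ} {X Z : 𝒱.Obj}

/-- The rank of the intersection form on a larger system. -/
lemma a_mono {S T : Sys W} (hST : ∀ X, S.C X ≤ T.C X) (Z : 𝒱.Obj) : S.a Z ≤ T.a Z := by
  let ι : S.C Z →ₗ[W.K] T.C Z := Submodule.inclusion (hST Z)
  have h1 : S.F Z 1 = ι.dualMap ∘ₗ T.F Z 1 ∘ₗ ι := by
    apply LinearMap.ext
    intro c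
    apply LinearMap.ext
    intro d
    rfl
  change finrank W.K (LinearMap.range (S.F Z 1)) ≤ finrank W.K (LinearMap.range (T.F Z 1))
  rw [h1, LinearMap.range_comp]
  refine (Submodule.finrank_map_le _ _).trans (Submodule.finrank_mono ?_)
  exact LinearMap.range_comp_le_range _ _

lemma tateSpace_eq (hG : IsGaloisTheory G) (Z : 𝒱.Obj) :
    (tatePred hG).sys.C Z = tateSpace G Z := rfl

lemma tateNull_eq (hG : IsGaloisTheory G) (Z : 𝒱.Obj) :
    (tatePred hG).sys.Num Z = tateNull G Z := by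
  ext c
  constructor
  · rintro ⟨h1, h2⟩; exact ⟨h1, h2⟩
  · rintro ⟨h1, h2⟩; exact ⟨h1, h2⟩

lemma tateRank_eq (hG : IsGaloisTheory G) (Z : 𝒱.Obj) :
    (tatePred hG).sys.a Z = tateRank G Z := by
  have h1 := (tatePred hG).sys.a_add_num Z
  rw [tateNull_eq hG, tateSpace_eq hG] at h1
  change _ = finrank W.K (tateSpace G Z) - finrank W.K (tateNull G Z)
  omega

lemma cycRank_le (hG : IsGaloisTheory G) (Z : 𝒱.Obj) : cycRank ops Z ≤ tateRank G Z := by
  rw [← numDim_eq_cycRank W Z, ← tateRank_eq hG]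
  exact a_mono (S := algSys W) (T := (tatePred hG).sys) (fun _ => ClassPred.alg_le) Z

end general

variable {𝒱 : VarClass (AlgebraicClosure ℚ)} {ops : CycleOps 𝒱}
  {W : WeilCohomology.{0, v} ops} {ℓ : ℕ} [hℓ : Fact ℓ.Prime] {e : W.K ≃+* ℚ_[ℓ]}
  {G : ActionData W GQ} {X : 𝒱.Obj} {S : Finset ℕ} {P : ℕ → ℕ → ℤ[X]}

theorem dichotomy (hG : IsGaloisTheory G) (hQ : OverQ e G X S P) :
    ((∀ i, SemisimpleIn G X i) ∧ ∀ n, PerfectPairing G (pw X n)) ∨
      Negligible (fun n => tateRank G (pw X n)) (fun n => tateDim G (pw X n)) := by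
  rcases (tatePred hG).sys.num_or (tatePred hG).sys (fun _ => le_rfl) X with h | h
  · left
    refine ⟨semisimple_of_perfect hG hQ fun n x hx hx' => ?_, fun n => ?_⟩
    · have h1 : x ∈ (tatePred hG).sys.Num (pw X n) := ⟨hx, hx'⟩
      rwa [h n, Submodule.mem_bot] at h1
    · have h1 := h n
      rw [tateNull_eq hG] at h1
      exact h1
  · right
    intro N
    obtain ⟨n₀, h0⟩ := h N
    refine ⟨n₀, fun n hn => ?_⟩
    have h1 := h0 n hn
    rw [tateRank_eq hG, tateSpace_eq hG] at h1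
    exact h1

end Pool.Agent.NH34.SS
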