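import Pool.Agent.NH34.SS.Core
import Pool.Agent.Y133.Half.Main2
import Pool.Agent.Y133.Half.Index

/-!
# Semisimplicity over the rational numbers from systems of Tate classes
-/

open CategoryTheory AlgebraicGeometry NumberField Polynomial

universe u v w

namespace Pool.Agent.NH34.SS

open Module
open Pool.Agent.H914 Pool.Agent.H914.VarClass Pool.Agent.H914.VarClass.Obj
  Pool.Agent.H914.WeilCohomology Pool.Agent.Y133.Half Pool.Agent.NH34.Gal Pool.Agent.NH34.Lin Pool.Agent.NH34.Reg
open Pool.Agent.Y133.Half.Sys (Nondeg Op mem_Op)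

section general

variable {k : Type u} [Field k] {𝒱 : VarClass k} {ops : CycleOps 𝒱}
  {W : WeilCohomology.{u, v} ops} {Γ : Type w} [Group Γ] {G : ActionData W Γ} {X : 𝒱.Obj}

/-- There is a system of Tate classes which is nondegenerate on `X^(2 m + 2)` and contains all Tate
classes of codimension `i (m + 1)`. -/
def Good (hG : IsGaloisTheory G) (X : 𝒱.Obj) (i m : ℕ) : Prop :=
  ∃ T : Sys W, (∀ c ∈ T.C (X.prod X), c ∈ (tatePred hG).sp (X.prod X)) ∧
    Nondeg T (pw X (2 * m + 1)) ∧
    ∀ c, IsTate G (pw X (2 * m + 1)) (i * (m + 1)) c → c ∈ T.C (pw X (2 * m + 1))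

lemma HasCompl.bot (hG : IsGaloisTheory G) (i : ℕ) : HasCompl G X i ⊥ :=
  ⟨W.gr X i, le_rfl, fun g x hx => hG.gr_mem X g i x hx, bot_inf_eq _, bot_sup_eq _⟩

end general

variable {𝒱 : VarClass (AlgebraicClosure ℚ)} {ops : CycleOps 𝒱}
  {W : WeilCohomology.{0, v} ops} {ℓ : ℕ} [hℓ : Fact ℓ.Prime] {e : W.K ≃+* ℚ_[ℓ]}
  {G : ActionData W GQ} {X : 𝒱.Obj} {S : Finset ℕ} {P : ℕ → ℕ → ℤ[X]}

/-- The existence of complements, if the condition `Good` is satisfied for the dimensions of the
stable subspaces. -/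
theorem semisimple_of (hG : IsGaloisTheory G) (hQ : OverQ e G X S P) {i i' : ℕ}
    (hi : i + i' = 2 * X.dim)
    (h : ∀ U ≤ W.gr X i, IsStable G X U → ∀ m, finrank W.K U = m + 1 →
      2 * (m + 1) ≤ finrank W.K (W.gr X i) → Good hG X i m)
    (h' : ∀ U ≤ W.gr X i', IsStable G X U → ∀ m, finrank W.K U = m + 1 →
      2 * (m + 1) ≤ finrank W.K (W.gr X i') → Good hG X i' m) :
    SemisimpleIn G X i := by
  intro U hU hst
  change HasCompl G X i U
  rcases Nat.eq_zero_or_pos (finrank W.K U) with h0 | hpos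
  · rw [Submodule.finrank_eq_zero.1 h0]
    exact HasCompl.bot hG i
  by_cases hsmall : 2 * finrank W.K U ≤ finrank W.K (W.gr X i)
  · obtain ⟨m, hm⟩ : ∃ m, finrank W.K U = m + 1 := ⟨finrank W.K U - 1, by omega⟩
    obtain ⟨T, h1, h2, h3⟩ := h U hU hst m hm (by omega)
    exact compl_small hG hQ hi hU hst hm h1 h2 h3
  · apply HasCompl.of_orth hG hi hU
    have hst' : IsStable G X (orth W X i' U) := orth_stable hG hst
    have e1 := finrank_orth (W := W) hi hU
    have e2 := finrank_gr_eq (W := W) (X := X) hi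
    rcases Nat.eq_zero_or_pos (finrank W.K (orth W X i' U)) with h0 | hpos'
    · rw [Submodule.finrank_eq_zero.1 h0]
      exact HasCompl.bot hG i'
    obtain ⟨m, hm⟩ : ∃ m, finrank W.K (orth W X i' U) = m + 1 :=
      ⟨finrank W.K (orth W X i' U) - 1, by omega⟩
    obtain ⟨T, h1, h2, h3⟩ := h' _ (orth_le _ _) hst' m hm (by omega)
    exact compl_small hG hQ (i := i') (i' := i) (by omega) (orth_le _ _) hst' hm h1 h2 h3

lemma semisimple_of_large (hG : IsGaloisTheory G) {i : ℕ} (hi : 2 * X.dim < i) :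
    SemisimpleIn G X i := by
  intro U hU hst
  rw [W.gr_eq_bot X i hi, le_bot_iff] at hU
  rw [hU]
  exact HasCompl.bot hG i

/-- **The pairing on the Tate classes.** If the intersection pairing on the Tate classes on the
powers of `X` is perfect, all `H^i(X)` are semisimple. -/
theorem semisimple_of_perfect (hG : IsGaloisTheory G) (hQ : OverQ e G X S P)
    (h : ∀ m, Nondeg (tatePred hG).sys (pw X m)) (i : ℕ) : SemisimpleIn G X i := by
  by_cases hi : 2 * X.dim < i
  · exact semisimple_of_large hG hi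
  · have hgood : ∀ i m, Good hG X i m := fun i m =>
      ⟨(tatePred hG).sys, fun c hc => hc, h _, fun c hc => ClassPred.sp_of hc⟩
    exact semisimple_of hG hQ (i := i) (i' := 2 * X.dim - i) (by omega)
      (fun U _ _ m _ _ => hgood _ m) (fun U _ _ m _ _ => hgood _ m)

end Pool.Agent.NH34.SS
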