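import Pool.Agent.NH34.Reg.Reg
import Pool.Agent.NH34.Reg.Contr
import Pool.Agent.NH34.Gal.Basic

/-!
# Projectors to Galois-stable subspaces
-/

open CategoryTheory AlgebraicGeometry

universe u v w

namespace Pool.Agent.NH34.SS

open Module
open Pool.Agent.H914 Pool.Agent.H914.VarClass Pool.Agent.H914.VarClass.Obj
  Pool.Agent.H914.WeilCohomology Pool.Agent.Y133.Half Pool.Agent.NH34.Gal Pool.Agent.NH34.Lin Pool.Agent.NH34.Reg
open Pool.Agent.Y133.Half.Sys (Nondeg Op mem_Op)

variable {k : Type u} [Field k] {𝒱 : VarClass k} {ops : CycleOps 𝒱}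
  {W : WeilCohomology.{u, v} ops} {X : 𝒱.Obj}

lemma tr_proj {i i' : ℕ} (hi : i + i' = 2 * X.dim) {x : W.H X} (hx : x ∈ W.gr X i) (y : W.H X) :
    W.tr X (x * proj (W.isInternal X) i' y) = W.tr X (x * y) := by
  refine gr_induction (W.isInternal X)
    (p := fun y => W.tr X (x * proj (W.isInternal X) i' y) = W.tr X (x * y)) ?_ ?_ y
  · intro j y hy
    by_cases hj : j = i'
    · subst hj; rw [proj_same _ hy]
    · rw [proj_ne _ hy hj, mul_zero, map_zero, W.tr_eq_zero (W.mul_mem hx hy) (by omega)]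
  · intro y y' hy hy'
    rw [map_add, mul_add, mul_add, map_add, map_add, hy, hy']

/-- Dual vectors for the intersection pairing. -/
lemma exists_dual {i i' m : ℕ} (hi : i + i' = 2 * X.dim) {u : Fin m → W.H X}
    (hu : ∀ j, u j ∈ W.gr X i) (hl : LinearIndependent W.K u) :
    ∃ v : Fin m → W.H X, (∀ j, v j ∈ W.gr X i') ∧
      ∀ p r, W.tr X (u p * v r) = if p = r then 1 else 0 := by
  let f : W.H X →ₗ[W.K] Dual W.K (W.H X) :=
    LinearMap.mk₂ W.K (fun a b => W.tr X (a * b))
      (fun a a' b => by rw [add_mul, map_add]) (fun c a b => by rw [smul_mul_assoc, map_smul])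
      (fun a b b' => by rw [mul_add, map_add]) (fun c a b => by rw [mul_smul_comm, map_smul])
  have hf : LinearMap.ker f = ⊥ := by
    rw [LinearMap.ker_eq_bot']
    intro a ha
    exact W.nondeg a fun b => congrArg (fun φ : Dual W.K (W.H X) => φ b) ha
  have h1 : LinearIndependent W.K (f ∘ u) := hl.map' f hf
  obtain ⟨y, hy⟩ := exists_dual_vectors h1
  refine ⟨fun r => proj (W.isInternal X) i' (y r), fun j => proj_mem _ _ _, fun p r => ?_⟩
  rw [tr_proj hi (hu p)]
  exact hy p r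

lemma proj_corr {i : ℕ} {x : W.H X} (hx : x ∈ W.gr X i) (c : W.H (X.prod X)) :
    proj (W.isInternal X) i (W.corr c x) =
      W.corr (proj (W.isInternal (X.prod X)) (2 * X.dim) c) x := by
  refine gr_induction (W.isInternal (X.prod X)) (p := fun c => proj (W.isInternal X) i
    (W.corr c x) = W.corr (proj (W.isInternal (X.prod X)) (2 * X.dim) c) x) ?_ ?_ c
  · intro j c hc
    have h1 := W.push_mem (snd X X) (W.mul_mem hc (W.map_mem (fst X X) hx))
    have e : ((j + i : ℕ) : ℤ) + 2 * ((X.dim : ℤ) - (X.prod X).dim) =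
        (i : ℤ) + (j - 2 * X.dim) := by
      rw [dim_prod]; push_cast; ring
    rw [← corr_apply, e] at h1
    by_cases hj : j = 2 * X.dim
    · subst hj
      rw [proj_same _ hc]
      have e2 : (i : ℤ) + (((2 * X.dim : ℕ) : ℤ) - 2 * (X.dim : ℤ)) = (i : ℤ) := by
        push_cast; ring
      rw [e2, grZ_natCast] at h1
      rw [proj_same _ h1]
    · rw [proj_ne _ hc hj, corr_zero, LinearMap.zero_apply]
      by_cases h0 : 0 ≤ (i : ℤ) + (j - 2 * X.dim)
      · obtain ⟨l, hl⟩ := Int.eq_ofNat_of_zero_le h0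
        rw [hl, grZ_natCast] at h1
        exact proj_ne _ h1 (by omega)
      · rw [grZ_of_neg (by omega), Submodule.mem_bot] at h1
        rw [h1, map_zero]
  · intro c c' hc hc'
    rw [corr_add, LinearMap.add_apply, map_add, hc, hc', map_add, corr_add, LinearMap.add_apply]

/-- A projector of degree zero to the span of the classes `u j`. -/
theorem exists_class {i i' m N : ℕ} (hi : i + i' = 2 * X.dim) {ε : Fin (N + 2) ≃ Fin m ⊕ Fin m}
    {q : Fin m} (hε : ε (Fin.last _) = Sum.inr q) {u : Fin m → W.H X}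
    (hu : ∀ j, u j ∈ W.gr X i) (hl : LinearIndependent W.K u) {S : Sys W}
    (hS : Nondeg S (pw X (N + 1))) (hc : cc W X ε u ∈ S.C (pw X (N + 1))) :
    ∃ c ∈ S.C (X.prod X), (∀ x ∈ W.gr X i,
      W.corr (proj (W.isInternal (X.prod X)) (2 * X.dim) c) x ∈
        Submodule.span W.K (Set.range u)) ∧
      ∀ x ∈ Submodule.span W.K (Set.range u),
        W.corr (proj (W.isInternal (X.prod X)) (2 * X.dim) c) x = x := by
  obtain ⟨v, hv, huv⟩ := exists_dual hi hu hl
  have hr := range_cc hε hu hv huv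
  have ha : W.corr (X := pw X N) (Y := X) (cc W X ε u) ∈ S.Op (pw X N) X :=
    Op.corr (X := pw X N) (Y := X) hc
  obtain ⟨φ, hφ, hreg⟩ := exists_regular (Q := pw X N) (X := X) hS ha
  obtain ⟨c, hcS, hce⟩ := mem_Op.1 (Op.comp ha hφ)
  have hgr : Submodule.span W.K (Set.range u) ≤ W.gr X i := by
    rw [Submodule.span_le]
    rintro _ ⟨j, rfl⟩
    exact hu j
  have h1 : ∀ x, W.corr c x ∈ Submodule.span W.K (Set.range u) := by
    intro x
    rw [hce, ← hr]
    exact ⟨φ x, rfl⟩
  have h2 : ∀ x ∈ Submodule.span W.K (Set.range u), W.corr c x = x := by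
    intro x hx
    rw [← hr] at hx
    obtain ⟨z, rfl⟩ := hx
    rw [hce]
    exact congrArg (fun f : W.H (pw X N) →ₗ[W.K] W.H X => f z) hreg
  refine ⟨c, hcS, fun x hx => ?_, fun x hx => ?_⟩
  · rw [← proj_corr hx, proj_same _ (hgr (h1 x))]
    exact h1 x
  · rw [← proj_corr (hgr hx), proj_same _ (hgr (h1 x))]
    exact h2 x hx

variable {Γ : Type w} [Group Γ] {G : ActionData W Γ}

/-- The action on external products. -/
lemma FF_act (hG : IsGaloisTheory G) (X : 𝒱.Obj) (n : ℕ) :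
    ForSmall fun g => ∀ (hX : g ∈ G.D X) (hP : g ∈ G.D (pw X n)) (a : Fin (n + 1) → W.H X),
      G.act (pw X n) ⟨g, hP⟩ (FF W X n a) = FF W X n fun j => G.act X ⟨g, hX⟩ (a j) := by
  refine (ForSmall.all fun j => hG.map_act (pw X n) X (prj X n j)).mono fun g hg hX hP a => ?_
  rw [FF_apply, FF_apply, map_list_prod, List.map_ofFn]
  congr 2
  funext j
  exact hg j hP hX (a j)

lemma G2_act (hG : IsGaloisTheory G) (X : 𝒱.Obj) {m N : ℕ} (ε : Fin (N + 2) ≃ Fin m ⊕ Fin m) :
    ForSmall fun g => ∀ (hX : g ∈ G.D X) (hP : g ∈ G.D (pw X (N + 1)))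
      (a : Fin m ⊕ Fin m → W.H X),
      G.act (pw X (N + 1)) ⟨g, hP⟩ (G2 W X ε a) = G2 W X ε fun j => G.act X ⟨g, hX⟩ (a j) :=
  (FF_act hG X (N + 1)).mono fun g hg hX hP a => by
    rw [G2, MultilinearMap.domDomCongr_apply, MultilinearMap.domDomCongr_apply]
    exact hg hX hP _

/-- The product of two alternating classes is a Tate class if the square of the determinant is the
right power of the character. -/
theorem cc_tate (hG : IsGaloisTheory G) {i m N : ℕ} (ε : Fin (N + 2) ≃ Fin m ⊕ Fin m)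
    {u : Fin m → W.H X} (hu : ∀ j, u j ∈ W.gr X i) (M : Γ → Matrix (Fin m) (Fin m) W.K)
    (hM : ForSmall fun g => ∀ (hX : g ∈ G.D X) (j : Fin m),
      G.act X ⟨g, hX⟩ (u j) = ∑ k, M g k j • u k)
    (hdet : ForSmall fun g => (M g).det ^ 2 = (G.χ g : W.K) ^ (i * m)) :
    IsTate G (pw X (N + 1)) (i * m) (cc W X ε u) := by
  refine ⟨cc_mem ε hu, ?_⟩
  refine (((G2_act hG X ε).and hM).and (hdet.and (ForSmall.mem (hG.finite X)))).mono ?_
  rintro g ⟨⟨h1, h2⟩, h3, hX⟩ hP
  have e : G.act (pw X (N + 1)) ⟨g, hP⟩ (cc W X ε u) =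
      D2 (G2 W X ε) (fun j => ∑ k, M g k j • u k) (fun j => ∑ k, M g k j • u k) := by
    rw [cc, D2, map_sum, D2]
    refine Finset.sum_congr rfl fun τ _ => ?_
    rw [map_sum]
    refine Finset.sum_congr rfl fun σ _ => ?_
    rw [Units.smul_def, Units.smul_def, Units.smul_def, Units.smul_def, map_zsmul, map_zsmul,
      h1 hX hP]
    congr 3
    funext j
    rcases j with j | j
    · exact h2 hX _
    · exact h2 hX _
  change _ = _
  rw [e, D2_matrix, h3, cc]

end Pool.Agent.NH34.SS
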