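import Mathlib

/-!
# Stable complements by averaging
-/

namespace Pool.Agent.NH34.SS

variable {K V : Type*} [Field K] [CharZero K] [AddCommGroup V] [Module K V] {Γ : Type*} [Group Γ]

/-- A projector to a stable subspace which commutes with the elements of a subgroup of finite index
gives a stable complement. -/
theorem exists_stable_compl (ρ : Γ →* Module.End K V) (U : Submodule K V)
    (hU : ∀ g, ∀ x ∈ U, ρ g x ∈ U) (p : Module.End K V) (h1 : ∀ x, p x ∈ U)
    (h2 : ∀ x ∈ U, p x = x) (Δ : Subgroup Γ) [hΔ : Δ.FiniteIndex]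
    (h3 : ∀ g ∈ Δ, ∀ x, p (ρ g x) = ρ g (p x)) :
    ∃ U' : Submodule K V, (∀ g, ∀ x ∈ U', ρ g x ∈ U') ∧ IsCompl U U' := by
  classical
  have : Fintype (Γ ⧸ Δ) := Fintype.ofFinite _
  have hinv : ∀ g x, ρ g⁻¹ (ρ g x) = x := by
    intro g x
    rw [← Module.End.mul_apply, ← map_mul, inv_mul_cancel, map_one, Module.End.one_apply]
  have hinv' : ∀ g x, ρ g (ρ g⁻¹ x) = x := by
    intro g x
    rw [← Module.End.mul_apply, ← map_mul, mul_inv_cancel, map_one, Module.End.one_apply]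
  let F0 : Γ → Module.End K V := fun g => ρ g * p * ρ g⁻¹
  have hF0 : ∀ a b : Γ, a⁻¹ * b ∈ Δ → F0 a = F0 b := by
    intro a b hab
    apply LinearMap.ext
    intro x
    change ρ a (p (ρ a⁻¹ x)) = ρ b (p (ρ b⁻¹ x))
    have e1 : ρ b = ρ a * ρ (a⁻¹ * b) := by rw [← map_mul, mul_inv_cancel_left]
    have e2 : ρ a⁻¹ x = ρ (a⁻¹ * b) (ρ b⁻¹ x) := by
      rw [← Module.End.mul_apply, ← map_mul, mul_assoc, mul_inv_cancel, mul_one]
    rw [e2, h3 _ hab, e1, Module.End.mul_apply]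
  let F : Γ ⧸ Δ → Module.End K V := fun x => Quotient.liftOn' x F0 fun a b hab =>
    hF0 a b (QuotientGroup.leftRel_apply.1 hab)
  have hF : ∀ g : Γ, F (g : Γ ⧸ Δ) = F0 g := fun _ => rfl
  let P : Module.End K V := ∑ x, F x
  have hPU : ∀ x, P x ∈ U := by
    intro x
    rw [LinearMap.sum_apply]
    refine Submodule.sum_mem _ fun q _ => ?_
    induction q using QuotientGroup.induction_on with
    | H g => rw [hF]; exact hU g _ (h1 _)
  have hPn : ∀ x ∈ U, P x = (Fintype.card (Γ ⧸ Δ) : K) • x := by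
    intro x hx
    rw [LinearMap.sum_apply, Finset.sum_congr rfl fun q _ => ?_, Finset.sum_const,
      Finset.card_univ, Nat.cast_smul_eq_nsmul]
    induction q using QuotientGroup.induction_on with
    | H g =>
      rw [hF]
      change ρ g (p (ρ g⁻¹ x)) = x
      rw [h2 _ (hU _ _ hx), hinv']
  have hPg : ∀ g x, P (ρ g x) = ρ g (P x) := by
    intro g x
    rw [LinearMap.sum_apply, LinearMap.sum_apply, map_sum]
    rw [← Equiv.sum_comp (MulAction.toPerm g : Equiv.Perm (Γ ⧸ Δ))]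
    refine Finset.sum_congr rfl fun q _ => ?_
    induction q using QuotientGroup.induction_on with
    | H h =>
      have e : MulAction.toPerm g (h : Γ ⧸ Δ) = ((g * h : Γ) : Γ ⧸ Δ) := rfl
      rw [e, hF, hF]
      change ρ (g * h) (p (ρ (g * h)⁻¹ (ρ g x))) = ρ g (ρ h (p (ρ h⁻¹ x)))
      rw [mul_inv_rev, map_mul ρ g h, map_mul ρ h⁻¹ g⁻¹, Module.End.mul_apply,
        Module.End.mul_apply, hinv]
  have hcard : (Fintype.card (Γ ⧸ Δ) : K) ≠ 0 := by
    rw [Nat.cast_ne_zero]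
    exact Fintype.card_ne_zero
  refine ⟨LinearMap.ker P, fun g x hx => ?_, ?_⟩
  · rw [LinearMap.mem_ker] at hx ⊢
    rw [hPg, hx, map_zero]
  · rw [isCompl_iff, Submodule.disjoint_def, Submodule.codisjoint_iff_exists_add_eq]
    refine ⟨fun x hx hx' => ?_, fun x => ?_⟩
    · rw [LinearMap.mem_ker, hPn x hx] at hx'
      exact (smul_eq_zero.1 hx').resolve_left hcard
    · refine ⟨(Fintype.card (Γ ⧸ Δ) : K)⁻¹ • P x, x - (Fintype.card (Γ ⧸ Δ) : K)⁻¹ • P x,
        Submodule.smul_mem _ _ (hPU x), ?_, by abel⟩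
      rw [LinearMap.mem_ker, map_sub, map_smul, hPn _ (hPU x), smul_smul, inv_mul_cancel₀ hcard,
        one_smul, sub_self]

end Pool.Agent.NH34.SS
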