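import Pool.Agent.NH34.SS.Det
import Pool.Agent.NH34.SS.Proj
import Pool.Agent.NH34.SS.Avg

/-!
# Stable complements over the rational numbers
-/

open CategoryTheory AlgebraicGeometry NumberField Polynomial

universe u v w

namespace Pool.Agent.NH34.SS

open Module
open Pool.Agent.H914 Pool.Agent.H914.VarClass Pool.Agent.H914.VarClass.Obj
  Pool.Agent.H914.WeilCohomology Pool.Agent.Y133.Half Pool.Agent.NH34.Gal Pool.Agent.NH34.Lin Pool.Agent.NH34.Reg
open Pool.Agent.Y133.Half.Sys (Nondeg Op mem_Op)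

/-- The blocks of variables. -/
def eps (m : ℕ) : Fin (2 * m + 2) ≃ Fin (m + 1) ⊕ Fin (m + 1) :=
  (finCongr (by omega)).trans finSumFinEquiv.symm

lemma eps_last (m : ℕ) : eps m (Fin.last _) = Sum.inr (Fin.last m) := by
  rw [eps, Equiv.trans_apply, Equiv.symm_apply_eq, finSumFinEquiv_apply_right]
  ext
  simp

section general

variable {k : Type u} [Field k] {𝒱 : VarClass k} {ops : CycleOps 𝒱}
  {W : WeilCohomology.{u, v} ops} {Γ : Type w} [Group Γ] {G : ActionData W Γ} {X : 𝒱.Obj}

lemma proj_act (hG : IsGaloisTheory G) (g : G.D X) (i : ℕ) (x : W.H X) :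
    proj (W.isInternal X) i (G.act X g x) = G.act X g (proj (W.isInternal X) i x) := by
  refine gr_induction (W.isInternal X) (p := fun x => proj (W.isInternal X) i (G.act X g x) =
    G.act X g (proj (W.isInternal X) i x)) ?_ ?_ x
  · intro j x hx
    by_cases hj : j = i
    · subst hj
      rw [proj_same _ (hG.gr_mem X g _ x hx), proj_same _ hx]
    · rw [proj_ne _ (hG.gr_mem X g _ x hx) hj, proj_ne _ hx hj, map_zero]
  · intro x y hx hy
    rw [map_add, map_add, hx, hy, map_add, map_add]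

/-- The spaces `H^i(X)` and `H^(i')(X)` are dual to each other. -/
noncomputable def pairing (W : WeilCohomology.{u, v} ops) (X : 𝒱.Obj) (i i' : ℕ) :
    W.gr X i →ₗ[W.K] Dual W.K (W.gr X i') :=
  LinearMap.mk₂ W.K (fun a b => W.tr X ((a : W.H X) * (b : W.H X)))
    (fun a a' b => by rw [Submodule.coe_add, add_mul, map_add])
    (fun c a b => by rw [Submodule.coe_smul, smul_mul_assoc, map_smul])
    (fun a b b' => by rw [Submodule.coe_add, mul_add, map_add])
    (fun c a b => by rw [Submodule.coe_smul, mul_smul_comm, map_smul])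

lemma pairing_apply (i i' : ℕ) (a : W.gr X i) (b : W.gr X i') :
    pairing W X i i' a b = W.tr X ((a : W.H X) * (b : W.H X)) := rfl

lemma pairing_injective {i i' : ℕ} (hi : i + i' = 2 * X.dim) :
    Function.Injective (pairing W X i i') := by
  rw [← LinearMap.ker_eq_bot, LinearMap.ker_eq_bot']
  intro a ha
  apply Subtype.ext
  apply W.nondeg
  intro b
  have h1 := congrArg (fun φ : Dual W.K (W.gr X i') => φ ⟨proj (W.isInternal X) i' b,
    proj_mem _ _ _⟩) ha
  have h2 : W.tr X ((a : W.H X) * proj (W.isInternal X) i' b) = 0 := h1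
  rwa [tr_proj hi a.2] at h2

lemma finrank_gr_eq {i i' : ℕ} (hi : i + i' = 2 * X.dim) :
    finrank W.K (W.gr X i) = finrank W.K (W.gr X i') := by
  apply le_antisymm
  · have := LinearMap.finrank_le_finrank_of_injective (pairing_injective (W := W) (X := X) hi)
    rwa [Subspace.dual_finrank_eq] at this
  · have := LinearMap.finrank_le_finrank_of_injective
      (pairing_injective (W := W) (X := X) (i := i') (i' := i) (by omega))
    rwa [Subspace.dual_finrank_eq] at this

/-- The duality between `H^i(X)` and `H^(i')(X)`. -/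
noncomputable def duality (W : WeilCohomology.{u, v} ops) (X : 𝒱.Obj) {i i' : ℕ}
    (hi : i + i' = 2 * X.dim) : W.gr X i ≃ₗ[W.K] Dual W.K (W.gr X i') :=
  LinearEquiv.ofInjectiveOfFinrankEq (pairing W X i i') (pairing_injective hi)
    (by rw [Subspace.dual_finrank_eq, finrank_gr_eq hi])

lemma duality_apply {i i' : ℕ} (hi : i + i' = 2 * X.dim) (a : W.gr X i) (b : W.gr X i') :
    duality W X hi a b = W.tr X ((a : W.H X) * (b : W.H X)) := rfl

/-- Every stable subspace `U` of `H^i(X)` has a stable complement. -/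
def HasCompl (G : ActionData W Γ) (X : 𝒱.Obj) (i : ℕ) (U : Submodule W.K (W.H X)) : Prop :=
  ∃ U' ≤ W.gr X i, IsStable G X U' ∧ U ⊓ U' = ⊥ ∧ U ⊔ U' = W.gr X i

/-- The orthogonal complement of `U` in `H^(i')(X)`. -/
def orth (W : WeilCohomology.{u, v} ops) (X : 𝒱.Obj) (i' : ℕ) (U : Submodule W.K (W.H X)) :
    Submodule W.K (W.H X) where
  carrier := {y | y ∈ W.gr X i' ∧ ∀ x ∈ U, W.tr X (x * y) = 0}
  add_mem' := by
    rintro a b ⟨ha, ha'⟩ ⟨hb, hb'⟩
    exact ⟨Submodule.add_mem _ ha hb, fun x hx => by rw [mul_add, map_add, ha' x hx, hb' x hx,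
      add_zero]⟩
  zero_mem' := ⟨Submodule.zero_mem _, fun x _ => by rw [mul_zero, map_zero]⟩
  smul_mem' := by
    rintro r a ⟨ha, ha'⟩
    exact ⟨Submodule.smul_mem _ _ ha, fun x hx => by rw [mul_smul_comm, map_smul, ha' x hx,
      smul_zero]⟩

lemma orth_le (i' : ℕ) (U : Submodule W.K (W.H X)) : orth W X i' U ≤ W.gr X i' := fun _ h => h.1

lemma orth_stable (hG : IsGaloisTheory G) {i' : ℕ} {U : Submodule W.K (W.H X)}
    (hU : IsStable G X U) : IsStable G X (orth W X i' U) := by
  rintro g y ⟨hy, hy'⟩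
  refine ⟨hG.gr_mem X g _ y hy, fun x hx => ?_⟩
  have h1 : x = G.act X g (G.act X g⁻¹ x) := by
    have h2 : G.act X g * G.act X g⁻¹ = 1 := by rw [← map_mul, mul_inv_cancel, map_one]
    exact (congrArg (fun f : W.H X ≃ₐ[W.K] W.H X => f x) h2).symm
  rw [h1, ← map_mul, hG.tr_act, hy' _ (hU _ x hx), mul_zero]

/-- The orthogonal complement under the duality. -/
lemma orth_submoduleOf {i i' : ℕ} (hi : i + i' = 2 * X.dim) {U : Submodule W.K (W.H X)}
    (hU : U ≤ W.gr X i) : (orth W X i' U).submoduleOf (W.gr X i') =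
      ((U.submoduleOf (W.gr X i)).map (duality W X hi).toLinearMap).dualCoannihilator := by
  ext y
  rw [Submodule.mem_dualCoannihilator]
  constructor
  · rintro ⟨_, hy⟩ _ ⟨x, hx, rfl⟩
    exact hy _ hx
  · intro h
    refine ⟨y.2, fun x hx => ?_⟩
    exact h _ ⟨⟨x, hU hx⟩, hx, rfl⟩

lemma finrank_orth {i i' : ℕ} (hi : i + i' = 2 * X.dim) {U : Submodule W.K (W.H X)}
    (hU : U ≤ W.gr X i) :
    finrank W.K U + finrank W.K (orth W X i' U) = finrank W.K (W.gr X i) := by
  have h1 := Subspace.finrank_add_finrank_dualCoannihilator_eq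
    ((U.submoduleOf (W.gr X i)).map (duality W X hi).toLinearMap)
  rw [← orth_submoduleOf hi hU,
    (Submodule.submoduleOfEquivOfLe (orth_le i' U)).finrank_eq, ← finrank_gr_eq hi] at h1
  rw [← h1]
  congr 1
  rw [← (Submodule.submoduleOfEquivOfLe hU).finrank_eq]
  exact (LinearEquiv.finrank_map_eq (duality W X hi) _).symm

/-- A stable complement of the orthogonal complement gives a stable complement. -/
lemma HasCompl.of_orth (hG : IsGaloisTheory G) {i i' : ℕ} (hi : i + i' = 2 * X.dim)
    {U : Submodule W.K (W.H X)} (hU : U ≤ W.gr X i)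
    (h : HasCompl G X i' (orth W X i' U)) : HasCompl G X i U := by
  obtain ⟨T, hT, hTs, h1, h2⟩ := h
  refine ⟨orth W X i T, orth_le _ _, orth_stable hG hTs, ?_, ?_⟩
  · rw [eq_bot_iff]
    rintro x ⟨hx, hxg, hx'⟩
    rw [Submodule.mem_bot]
    have h3 : (⟨x, hxg⟩ : W.gr X i) = 0 := by
      apply pairing_injective (W := W) (X := X) hi
      rw [map_zero]
      apply LinearMap.ext
      intro b
      have hb : (b : W.H X) ∈ orth W X i' U ⊔ T := by rw [h2]; exact b.2
      obtain ⟨y, hy, t, ht, hyt⟩ := Submodule.mem_sup.1 hb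
      rw [pairing_apply, ← hyt, mul_add, map_add, hy.2 x hx, zero_add]
      have h4 := hx' t ht
      have h5 : x * t = (-1 : W.K) ^ (i * i') • (t * x) := W.comm hxg (hT ht)
      rw [h5, map_smul, h4, smul_zero]
      rfl
    exact congrArg Subtype.val h3
  · apply Submodule.eq_of_le_of_finrank_le
    · exact sup_le hU (orth_le _ _)
    · have e1 := finrank_orth (W := W) hi hU
      have e2 := finrank_orth (W := W) (X := X) (i := i') (i' := i) (by omega) hT
      have e3 := Submodule.finrank_sup_add_finrank_inf_eq (orth W X i' U) T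
      rw [h1, h2, finrank_bot] at e3
      have e4 := finrank_gr_eq (W := W) (X := X) hi
      have e5 := Submodule.finrank_sup_add_finrank_inf_eq U (orth W X i T)
      have e6 : U ⊓ orth W X i T = ⊥ := by
        rw [eq_bot_iff]
        rintro x ⟨hx, hxg, hx'⟩
        rw [Submodule.mem_bot]
        have h3 : (⟨x, hxg⟩ : W.gr X i) = 0 := by
          apply pairing_injective (W := W) (X := X) hi
          rw [map_zero]
          apply LinearMap.ext
          intro b
          have hb : (b : W.H X) ∈ orth W X i' U ⊔ T := by rw [h2]; exact b.2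
          obtain ⟨y, hy, t, ht, hyt⟩ := Submodule.mem_sup.1 hb
          rw [pairing_apply, ← hyt, mul_add, map_add, hy.2 x hx, zero_add]
          have h4 := hx' t ht
          have h5 : x * t = (-1 : W.K) ^ (i * i') • (t * x) := W.comm hxg (hT ht)
          rw [h5, map_smul, h4, smul_zero]
          rfl
        exact congrArg Subtype.val h3
      rw [e6, finrank_bot] at e5
      omega

end general

variable {𝒱 : VarClass (AlgebraicClosure ℚ)} {ops : CycleOps 𝒱}
  {W : WeilCohomology.{0, v} ops} {ℓ : ℕ} [hℓ : Fact ℓ.Prime] {e : W.K ≃+* ℚ_[ℓ]}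
  {G : ActionData W GQ} {X : 𝒱.Obj} {S : Finset ℕ} {P : ℕ → ℕ → ℤ[X]}

/-- A subspace of the cohomology has a basis. -/
lemma exists_basis_fin {U : Submodule W.K (W.H X)} {m : ℕ} (hm : finrank W.K U = m) :
    ∃ u : Fin m → W.H X, LinearIndependent W.K u ∧ Submodule.span W.K (Set.range u) = U := by
  subst hm
  exact exists_fam U

/-- **Stable complements.** A stable subspace `U` of dimension `m + 1` of `H^i(X)` has a stable
complement if there is a system of Tate classes which is nondegenerate on `X^(2 m + 2)` and contains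
the Tate classes of codimension `i (m + 1)`. -/
theorem compl_small (hG : IsGaloisTheory G) (hQ : OverQ e G X S P) {i i' : ℕ}
    (hi : i + i' = 2 * X.dim) {U : Submodule W.K (W.H X)} (hU : U ≤ W.gr X i)
    (hst : IsStable G X U) {m : ℕ} (hm : finrank W.K U = m + 1) {T : Sys W}
    (hT : ∀ c ∈ T.C (X.prod X), c ∈ (tatePred hG).sp (X.prod X))
    (hnd : Nondeg T (pw X (2 * m + 1)))
    (hc : ∀ c, IsTate G (pw X (2 * m + 1)) (i * (m + 1)) c → c ∈ T.C (pw X (2 * m + 1))) :
    HasCompl G X i U := by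
  obtain ⟨u, hl, hspan⟩ := exists_basis_fin hm
  have hu : ∀ j, u j ∈ W.gr X i := fun j => hU (by rw [← hspan]; exact Submodule.subset_span ⟨j, rfl⟩)
  obtain ⟨M, δ, hδ, hM, -, n, hn, hrel⟩ := det_small hG hQ hu hl (by rw [hspan]; exact hst)
  have hdet : ForSmall fun g => (M g).det ^ 2 = (G.χ g : W.K) ^ (i * (m + 1)) := by
    refine (small_of_pow (δ ^ 2) (G.χ ^ (i * (m + 1))) hn fun g => ?_).mono fun g hg => ?_
    · change ((δ g ^ 2 : W.Kˣ) : W.K) ^ n = ((G.χ g ^ (i * (m + 1)) : W.Kˣ) : W.K) ^ n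
      rw [Units.val_pow_eq_pow_val, Units.val_pow_eq_pow_val, ← pow_mul, ← pow_mul, hδ]
      exact hrel g
    · change ((δ g ^ 2 : W.Kˣ) : W.K) = ((G.χ g ^ (i * (m + 1)) : W.Kˣ) : W.K) at hg
      rw [Units.val_pow_eq_pow_val, Units.val_pow_eq_pow_val, hδ] at hg
      exact hg
  have htate : IsTate G (pw X (2 * m + 1)) (i * (m + 1)) (cc W X (eps m) u) :=
    cc_tate hG (eps m) hu M (ForSmall.of_all fun g hX j => hM g j) hdet
  obtain ⟨c, hcT, h1, h2⟩ := exists_class hi (eps_last m) hu hl hnd (hc _ htate)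
  rw [hspan] at h1 h2
  set c' := proj (W.isInternal (X.prod X)) (2 * X.dim) c with hc'
  have hc't : IsTate G (X.prod X) X.dim c' := ClassPred.sp_proj (Q := tatePred hG) (hT c hcT) X.dim
  -- the projector
  obtain ⟨Δ, hΔ, hΔc⟩ := corr_act hG hc't
  obtain ⟨U', hU's, hU'c⟩ := exists_stable_compl (rep G X hQ.all) U
    (fun g x hx => hst ⟨g, hQ.all g⟩ x hx) (W.corr c' ∘ₗ proj (W.isInternal X) i)
    (fun x => h1 _ (proj_mem _ _ _))
    (fun x hx => by rw [LinearMap.comp_apply, proj_same _ (hU hx)]; exact h2 x hx) Δ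
    (fun g hg x => by
      have h3 := hΔc g hg (hQ.all g) (hQ.all g) (proj (W.isInternal X) i x)
      have h4 := smul_right_injective (W.H X) (pow_ne_zero X.dim (G.χ g).ne_zero) h3
      rw [LinearMap.comp_apply, LinearMap.comp_apply, rep_apply, rep_apply, proj_act hG]
      exact h4.symm)
  refine ⟨U' ⊓ W.gr X i, inf_le_right, fun g x hx => ⟨hU's g x hx.1, hG.gr_mem X g i x hx.2⟩, ?_, ?_⟩
  · rw [← inf_assoc, hU'c.inf_eq_bot, bot_inf_eq]
  · rw [← sup_inf_assoc_of_le U' hU, hU'c.sup_eq_top, top_inf_eq]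

end Pool.Agent.NH34.SS
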