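import Pool.Agent.NH34.Gal.QDefs
import Pool.Agent.NH34.Gal.Basic
import Pool.Agent.Y142.Core
import Pool.Agent.W571.FM.Frob

/-!
# Determinants of stable subspaces over the rational numbers
-/

open CategoryTheory AlgebraicGeometry NumberField Polynomial

universe u v w

namespace Pool.Agent.NH34.SS

open Module
open Pool.Agent.H914 Pool.Agent.H914.VarClass Pool.Agent.H914.VarClass.Obj
  Pool.Agent.H914.WeilCohomology Pool.Agent.NH34.Gal Pool.Agent.NH34.Lin

section Rep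

variable {k : Type u} [Field k] {𝒱 : VarClass k} {ops : CycleOps 𝒱}
  {W : WeilCohomology.{u, v} ops} {Γ : Type w} [Group Γ] {G : ActionData W Γ} {X : 𝒱.Obj}

/-- The representation on the cohomology. -/
noncomputable def rep (G : ActionData W Γ) (X : 𝒱.Obj) (h : ∀ g, g ∈ G.D X) :
    Γ →* (W.H X →ₗ[W.K] W.H X) where
  toFun g := (G.act X ⟨g, h g⟩).toLinearMap
  map_one' := by
    have : (⟨1, h 1⟩ : G.D X) = 1 := rfl
    rw [this, map_one]
    rfl
  map_mul' a b := by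
    have : (⟨a * b, h (a * b)⟩ : G.D X) = ⟨a, h a⟩ * ⟨b, h b⟩ := rfl
    rw [this, map_mul]
    rfl

lemma rep_apply (h : ∀ g, g ∈ G.D X) (g : Γ) (x : W.H X) :
    rep G X h g x = G.act X ⟨g, h g⟩ x := rfl

/-- The determinant of a stable subspace is the determinant of a matrix, and the characteristic
polynomial of the restriction divides the characteristic polynomial. -/
lemma charpoly_dvd {V : Type*} [AddCommGroup V] {K : Type*} [Field K] [Infinite K] [Module K V]
    [FiniteDimensional K V] {U V' : Submodule K V} (hUV : U ≤ V') {f : V →ₗ[K] V}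
    (hU : ∀ x ∈ U, f x ∈ U) (hV : ∀ x ∈ V', f x ∈ V') :
    (f.restrict hU).charpoly ∣ (f.restrict hV).charpoly := by
  have h1 : U.submoduleOf V' ≤ (U.submoduleOf V').comap (f.restrict hV) := by
    intro x hx
    exact hU _ hx
  have h2 : (f.restrict hU).charpoly = ((f.restrict hV).restrict h1).charpoly := by
    rw [← LinearEquiv.charpoly_conj (Submodule.submoduleOfEquivOfLe hUV)
      ((f.restrict hV).restrict h1)]
    congr 1
  rw [Pool.Agent.Y142.charpoly_eq_mul h1, h2]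
  exact dvd_mul_right _ _

end Rep

variable {𝒱 : VarClass (AlgebraicClosure ℚ)} {ops : CycleOps 𝒱}
  {W : WeilCohomology.{0, v} ops} {ℓ : ℕ} [hℓ : Fact ℓ.Prime] {e : W.K ≃+* ℚ_[ℓ]}
  {G : ActionData W GQ} {X : 𝒱.Obj} {S : Finset ℕ} {P : ℕ → ℕ → ℤ[X]}

/-- Pure numbers and ring homomorphisms. -/
lemma exists_poly_of_pure {F F' : Type*} [Field F] [Field F'] (e : F →+* F') {c : ℝ} {y : F}
    (h : Pool.Agent.Y142.Pure c y) : ∃ P : ℤ[X], P.Monic ∧ aeval (e y) P = 0 ∧
      ∀ z : ℂ, aeval z P = 0 → ‖z‖ ^ 2 = c := by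
  obtain ⟨P, hP, h1, h2⟩ := h
  refine ⟨P, hP, ?_, h2⟩
  have h3 := congrArg e h1
  rw [map_zero, aeval_def, hom_eval₂] at h3
  rw [aeval_def]
  convert h3 using 2
  exact RingHom.ext_int _ _

/-- **The determinant of a stable subspace.** The square of the determinant of a subspace of
`H^i(X)` of dimension `m` which is stable under the absolute Galois group of `ℚ` is the power
`χ ^ (i m)` on a subgroup of finite index. -/
theorem det_small (hG : IsGaloisTheory G) (hQ : OverQ e G X S P) {i m : ℕ} {u : Fin m → W.H X}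
    (hu : ∀ j, u j ∈ W.gr X i) (hl : LinearIndependent W.K u)
    (hU : IsStable G X (Submodule.span W.K (Set.range u))) :
    ∃ (M : GQ → Matrix (Fin m) (Fin m) W.K) (δ : GQ →* W.Kˣ), (∀ g, (δ g : W.K) = (M g).det) ∧
      (∀ g j, G.act X ⟨g, hQ.all g⟩ (u j) = ∑ k, M g k j • u k) ∧
      (∀ q, q.Prime → q ∉ S → ∀ σ, IsFrobenius q σ → ∃ Q : W.K[X], Q.Monic ∧ Q.natDegree = m ∧
        Q ∣ (P i q).map (algebraMap ℤ W.K) ∧ (M σ⁻¹).det = (-1) ^ m * Q.coeff 0) ∧
      ∃ n : ℕ, 0 < n ∧ ∀ g, (M g).det ^ (2 * n) = (G.χ g : W.K) ^ (i * m * n) := by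
  classical
  set U := Submodule.span W.K (Set.range u) with hUdef
  have hUg : U ≤ W.gr X i := by
    rw [hUdef, Submodule.span_le]
    rintro _ ⟨j, rfl⟩
    exact hu j
  let b : Basis (Fin m) W.K U := Basis.span hl
  have hb : ∀ j, (b j : W.H X) = u j := fun j => congrArg Subtype.val (Basis.span_apply hl j)
  let ρ := rep G X hQ.all
  have hU' : ∀ g, U ≤ U.comap (ρ g) := fun g x hx => hU ⟨g, hQ.all g⟩ x hx
  let M : GQ → Matrix (Fin m) (Fin m) W.K := fun g =>
    LinearMap.toMatrix b b ((ρ g).restrict (hU' g))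
  have hMa : ∀ g k j, M g k j = b.repr ((ρ g).restrict (hU' g) (b j)) k := fun g k j =>
    LinearMap.toMatrix_apply _ _ _ _ _
  let δ : GQ →* W.Kˣ := Pool.Agent.Y142.detRep ρ U hU'
  have hδM : ∀ g, (δ g : W.K) = (M g).det := by
    intro g
    rw [Pool.Agent.Y142.coe_detRep, LinearMap.det_toMatrix]
  have hM : ∀ g j, G.act X ⟨g, hQ.all g⟩ (u j) = ∑ k, M g k j • u k := by
    intro g j
    have h1 := congrArg Subtype.val (b.sum_repr ((ρ g).restrict (hU' g) (b j)))
    simp only [AddSubmonoidClass.coe_finsetSum, Submodule.coe_smul, hb] at h1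
    have h2 : (((ρ g).restrict (hU' g) (b j) : U) : W.H X) = G.act X ⟨g, hQ.all g⟩ (u j) := by
      rw [← hb j]; rfl
    rw [← h2, ← h1]
    exact Finset.sum_congr rfl fun k _ => by rw [hMa]
  have hfin : finrank W.K U = m := by
    rw [finrank_eq_card_basis b, Fintype.card_fin]
  have hinf : Infinite W.K := Infinite.of_injective _ (Nat.cast_injective (R := W.K))
  have hfrob : ∀ q, q.Prime → q ∉ S → ∀ σ, IsFrobenius q σ → ∃ Q : W.K[X], Q.Monic ∧
      Q.natDegree = m ∧ Q ∣ (P i q).map (algebraMap ℤ W.K) ∧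
        (M σ⁻¹).det = (-1) ^ m * Q.coeff 0 := by
    intro q hq hqS σ hσ
    refine ⟨((ρ σ⁻¹).restrict (hU' σ⁻¹)).charpoly, LinearMap.charpoly_monic _, ?_, ?_, ?_⟩
    · rw [LinearMap.charpoly_natDegree, hfin]
    · have h1 : ∀ x ∈ W.gr X i, ρ σ⁻¹ x ∈ W.gr X i := fun x hx => hG.gr_mem X _ i x hx
      have h2 := hQ.charpoly i q hq hqS σ hσ h1
      rw [← h2]
      exact charpoly_dvd hUg _ _
    · rw [← hδM, Pool.Agent.Y142.coe_detRep, Pool.Agent.Y142.det_eq_sign_coeff,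
        LinearMap.charpoly_natDegree, hfin]
  refine ⟨M, δ, hδM, hM, hfrob, ?_⟩
  -- the characters
  let E : W.Kˣ →* ℚ_[ℓ]ˣ := Units.map (e : W.K →+* ℚ_[ℓ])
  let δ' : GQ →* ℚ_[ℓ]ˣ := E.comp δ
  let χ' : GQ →* ℚ_[ℓ]ˣ := E.comp G.χ
  have hδ' : ∀ g, (δ' g : ℚ_[ℓ]) = e (M g).det := by
    intro g
    rw [← hδM]; rfl
  have hδc : Continuous fun g => (δ' g : ℚ_[ℓ]) := by
    have h1 : (fun g => (δ' g : ℚ_[ℓ])) = fun g => ((e : W.K →+* ℚ_[ℓ]).mapMatrix (M g)).det := by
      funext g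
      rw [hδ', ← RingHom.map_det]
      rfl
    rw [h1]
    apply Continuous.matrix_det
    apply continuous_matrix
    intro r s
    obtain ⟨φ, hφ⟩ := LinearMap.exists_extend (b.coord r)
    refine (hQ.continuous φ (u s)).congr fun g => ?_
    rw [RingHom.mapMatrix_apply, Matrix.map_apply]
    change e (φ (G.act X ⟨g, hQ.all g⟩ (u s))) = e (M g r s)
    rw [hMa]
    have h2 : φ (((ρ g).restrict (hU' g) (b s) : U) : W.H X) =
        b.coord r ((ρ g).restrict (hU' g) (b s)) := by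
      rw [← hφ]; rfl
    rw [Basis.coord_apply] at h2
    rw [← h2, ← hb s]
    rfl
  have hχc : Continuous fun g => (χ' g : ℚ_[ℓ]) := hQ.cyclotomic
  obtain ⟨n, hn, hrel⟩ := Pool.Agent.Y142.char_main δ' χ' hδc hχc (w := 1) (d := i * m) one_pos (by
    intro S₀
    obtain ⟨q, hq, hqS⟩ := (Nat.infinite_setOfPred_prime.sdiff (S₀ ∪ S).finite_toSet).nonempty
    have hqS₀ : q ∉ S₀ := fun h => hqS (by simp [h])
    have hqS' : q ∉ S := fun h => hqS (by simp [h])
    have hq' : q.Prime := hq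
    obtain ⟨⟨Q, hQm, hqQ, σ, hσ⟩, -⟩ := Pool.Agent.W571.FM.main q hq'
    have hfr : IsFrobenius q σ := ⟨Q, hQm, hqQ, hσ⟩
    refine ⟨q, hq', hqS₀, σ⁻¹, ?_, ?_⟩
    · rw [pow_one]
      change e (G.χ σ⁻¹ : W.K) = _
      rw [hQ.twist q hq' hqS' σ hfr, map_natCast]
    · obtain ⟨R, hR, hRm, hRd, hRc⟩ := hfrob q hq' hqS' σ hfr
      have h1 := Pool.Agent.Y142.pure_coeff_zero (hQ.monic i q hq' hqS')
        (hQ.weight i q hq' hqS') hR hRd
      obtain ⟨T, hT, hT1, hT2⟩ := exists_poly_of_pure (e : W.K →+* ℚ_[ℓ]) h1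
      refine ⟨T, hT, ?_, fun z hz => ?_⟩
      · have h5 : (δ' σ⁻¹ : ℚ_[ℓ]) = e ((-1) ^ R.natDegree * R.coeff 0) := by
          rw [hδ', hRc, hRm]
        exact (congrArg (fun t : ℚ_[ℓ] => aeval t T) h5).trans hT1
      · rw [hT2 z hz, hRm, ← pow_mul, one_mul])
  refine ⟨n, hn, fun g => ?_⟩
  have hrel' : δ' g ^ (2 * n) = χ' g ^ (i * m * n) := hrel g
  have h1 := congrArg (fun t : ℚ_[ℓ]ˣ => (t : ℚ_[ℓ])) hrel'
  simp only [Units.val_pow_eq_pow_val] at h1
  rw [hδ'] at h1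
  have h2 : (χ' g : ℚ_[ℓ]) = e (G.χ g : W.K) := rfl
  rw [h2, ← map_pow, ← map_pow] at h1
  exact e.injective h1

/-- An equality of powers of characters gives an equality on a subgroup of finite index. -/
lemma small_of_pow {K : Type*} [Field K] {Γ : Type*} [Group Γ] (a b : Γ →* Kˣ) {n : ℕ}
    (hn : 0 < n) (h : ∀ g, (a g : K) ^ n = (b g : K) ^ n) :
    ForSmall fun g => (a g : K) = (b g : K) := by
  let κ : Γ →* Kˣ := a / b
  have hκ : ∀ g, κ g ^ n = 1 := by
    intro g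
    change (a g / b g) ^ n = 1
    rw [div_pow, div_eq_one]
    apply Units.ext
    rw [Units.val_pow_eq_pow_val, Units.val_pow_eq_pow_val]
    exact h g
  have hfin : Finite κ.range := by
    have : NeZero n := ⟨hn.ne'⟩
    have h1 : (κ.range : Set Kˣ) ⊆ (rootsOfUnity n K : Set Kˣ) := by
      rintro _ ⟨g, rfl⟩
      exact (mem_rootsOfUnity n _).2 (hκ g)
    have h0 : Finite (rootsOfUnity n K) := inferInstance
    have h2 : (rootsOfUnity n K : Set Kˣ).Finite := Set.toFinite (rootsOfUnity n K : Set Kˣ)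
    exact (h2.subset h1).to_subtype
  refine ⟨κ.ker, Subgroup.finiteIndex_ker κ, fun g hg => ?_⟩
  have h1 : a g / b g = 1 := hg
  rw [div_eq_one] at h1
  exact congrArg Units.val h1

end Pool.Agent.NH34.SS
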