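import Pool.Agent.NH34.SS.Dich

/-!
# A positive proportion of the Tate classes
-/

open CategoryTheory AlgebraicGeometry NumberField Polynomial

universe u v w

namespace Pool.Agent.NH34.SS

open Module
open Pool.Agent.H914 Pool.Agent.H914.VarClass Pool.Agent.H914.VarClass.Obj
  Pool.Agent.H914.WeilCohomology Pool.Agent.Y133.Half Pool.Agent.NH34.Gal Pool.Agent.NH34.Lin Pool.Agent.NH34.Reg
  Pool.Agent.H281R3.HT
open Pool.Agent.Y133.Half.Sys (Nondeg Op mem_Op)

variable {𝒱 : VarClass (AlgebraicClosure ℚ)} {ops : CycleOps 𝒱}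
  {W : WeilCohomology.{0, v} ops} {ℓ : ℕ} [hℓ : Fact ℓ.Prime] {e : W.K ≃+* ℚ_[ℓ]}
  {G : ActionData W GQ} {X : 𝒱.Obj} {S : Finset ℕ} {P : ℕ → ℕ → ℤ[X]}

theorem positive_proportion (hG : IsGaloisTheory G) (hQ : OverQ e G X S P)
    (h : ¬ Negligible (fun n => cycRank ops (pw X n)) (fun n => tateDim G (pw X n))) :
    (∀ i, SemisimpleIn G X i) ∧ ∀ n, PerfectPairing G (pw X n) ∧ HomEqNum W (pw X n) := by
  have h1 : (∀ i, SemisimpleIn G X i) ∧ ∀ n, PerfectPairing G (pw X n) := by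
    rcases dichotomy hG hQ with h1 | h1
    · exact h1
    · refine absurd (fun N => ?_) h
      obtain ⟨n₀, h2⟩ := h1 N
      exact ⟨n₀, fun n hn => (Nat.mul_le_mul_left N (cycRank_le hG _)).trans (h2 n hn)⟩
  refine ⟨h1.1, fun n => ⟨h1.2 n, ?_⟩⟩
  rcases (algSys W).num_or (tatePred hG).sys (fun _ => ClassPred.alg_le) X with h2 | h2
  · exact (homEqNum_iff _).2 (h2 n)
  · refine absurd (fun N => ?_) h
    obtain ⟨n₀, h3⟩ := h2 N
    refine ⟨n₀, fun n hn => ?_⟩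
    have h4 := h3 n hn
    rw [numDim_eq_cycRank, tateSpace_eq hG] at h4
    exact h4

end Pool.Agent.NH34.SS
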